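import Pool.Agent.Lib.MP_8bcb2e_ag.F.All

/-!
# MP_8bcb2e_ag: effective birationality for towers of fibrations in curves

Let `k` be a perfect field of characteristic `p`, and `X = X_m → X_{m-1} → … → X_0` (`m ≥ 1`) a sequence
of dominant morphisms of smooth proper varieties over `k`, `dim X_i = d + i`, `d ≥ 1`, such that the
generic fibre of every `X_{i+1} → X_i` is a smooth curve of genus at least two and `|rK|` of `X_0`
(`r ≥ 1`) is generically finite onto its image. Put `R 0 = r`, `R (i + 1) = 1 + (d + i + 2) R i`,
`n = dim X = d + m`. Then `|R_m K_X|` is generically finite onto its image, Schwede's canonical linear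
system `S⁰((1 + j R_m)K_X)` defines a birational map for every `j ≥ n + 2`, and so does
`|(1 + (n + 2)R_m)K_X|`. If `X_0` is a curve of genus at least two (`d = r = 1`), the numbers `R_m` are
`4, 17, 86, …`, in every characteristic. For `m = 1` this says: if `|rK_Z|` is generically finite and
`X → Z` is a fibration in curves as above, then `|(1 + r(dim Z + 2))K_X|` is generically finite.

Rational `m`-canonical forms are written as `F η ^ m`, where `η` is the rational top form given by a
nonzero alternating form `Ψ` on the differentials of the function field; `T` is the trace of the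
Frobenius on rational top forms in this notation, and it exists and is unique. The definitions are in
`Pool.Agent.Lib.MP_8bcb2e_ag.Defs`, `Pool.Agent.Lib.MP_8bcb2e_ag.Spec` (schemes) and
`Pool.Agent.Lib.MP_8bcb2e_ag.F.Defs` (`TwoForms`), `Pool.Agent.Lib.MP_8bcb2e_ag.F.Scheme`
(`SmoothGeneric`, `GenusTwo`), `Pool.Agent.Lib.MP_8bcb2e_ag.F.RelTower` (`CurveTower`, `towerBound`).
-/

set_option autoImplicit false

universe u

namespace Pool.Agent.Results.MP_8bcb2e_ag.FibrationsInCurves

open KaehlerDifferential AlgebraicGeometry CategoryTheory Pool.Agent.Lib.MP_8bcb2e_ag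

theorem result {k : Type u} [Field k] [PerfectField k] (p : ℕ) [Fact p.Prime] [CharP k p]
    {d r m : ℕ} (hd : 1 ≤ d) (hr : 1 ≤ r) (_ : 1 ≤ m) {X : Scheme.{u}} [IsIntegral X]
    (f : X ⟶ Spec (.of k)) (h : F.CurveTower k d r m X f) :
    letI := functionFieldAlgebra f
    ∀ Ψ : Ω[X.functionField⁄k] [⋀^Fin (d + m)]→ₗ[X.functionField] X.functionField, Ψ ≠ 0 →
      ∃ T : X.functionField → X.functionField, IsFrobTrace k Ψ p T ∧
        (∀ T', IsFrobTrace k Ψ p T' → T' = T) ∧
        GenericallyFinite k (sections k Ψ (localRings X) (F.towerBound d r m)) ∧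
        (∀ j : ℕ, d + m + 2 ≤ j →
          Birational k (S0 k Ψ p T (localRings X) (1 + j * F.towerBound d r m))) ∧
        Birational k (sections k Ψ (localRings X) (1 + (d + m + 2) * F.towerBound d r m)) :=
  F.curveTower_all p hd hr h

end Pool.Agent.Results.MP_8bcb2e_ag.FibrationsInCurves
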