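import Pool.Agent.Lib.MP_8bcb2e_ag.SchemeMain
import Pool.Agent.Lib.MP_8bcb2e_ag.PBasis
import Pool.Agent.Lib.MP_8bcb2e_ag.TraceMonomial
import Pool.Agent.Lib.MP_8bcb2e_ag.TopMem
import Pool.Agent.Lib.MP_8bcb2e_ag.SepExists
import Pool.Agent.Lib.MP_8bcb2e_ag.DerivBound
import Pool.Agent.Lib.MP_8bcb2e_ag.IntegralOfHeightOne
import Pool.Agent.Lib.MP_8bcb2e_ag.InftyChart
import Pool.Agent.Lib.MP_8bcb2e_ag.TwoCharts
import Pool.Agent.Lib.MP_8bcb2e_ag.IntegralSections
import Pool.Agent.Lib.MP_8bcb2e_ag.WSection
import Pool.Agent.Lib.MP_8bcb2e_ag.Spread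
import Pool.Agent.Lib.MP_8bcb2e_ag.TraceExists
import Pool.Agent.Lib.MP_8bcb2e_ag.SchemeCoord
import Pool.Agent.Lib.MP_8bcb2e_ag.SchemeComplete
import Pool.Agent.Lib.MP_8bcb2e_ag.SchemeFin

/-!
# MP_8bcb2e_ag: generic finiteness of `|rK_X|` implies birationality of `S⁰(mK_X)`

Let `X` be a smooth proper variety of dimension `n ≥ 1` over a perfect field `k` of characteristic `p`.
If the rational map defined by the complete linear system `|rK_X|` is generically finite onto its image
(no birationality or separability is assumed), then for every `j ≥ n + 2` Schwede's canonical linear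
system `S⁰((1 + j r)K_X)` defines a birational map.

Rational `m`-canonical forms are written as `F η ^ m`, where `η` is the rational top form given by a
nonzero alternating form `Ψ` on the differentials of the function field; `T` is the trace of the
Frobenius on rational top forms in this notation, and it exists and is unique. The definitions are in
`Pool.Agent.Lib.MP_8bcb2e_ag.Defs` and (for schemes) in `Pool.Agent.Lib.MP_8bcb2e_ag.Spec`.
-/

set_option autoImplicit false

universe u

namespace Pool.Agent.Results.MP_8bcb2e_ag.GenericFiniteness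

open KaehlerDifferential AlgebraicGeometry CategoryTheory Pool.Agent.Lib.MP_8bcb2e_ag

theorem result {k : Type u} [Field k] [PerfectField k] (p : ℕ) [Fact p.Prime] [CharP k p]
    {X : Scheme.{u}} [IsIntegral X] {n : ℕ} (hn : 1 ≤ n)
    (f : X ⟶ Spec (.of k)) [IsProper f] [SmoothOfRelativeDimension n f] :
    letI := functionFieldAlgebra f
    ∀ Ψ : Ω[X.functionField⁄k] [⋀^Fin n]→ₗ[X.functionField] X.functionField, Ψ ≠ 0 →
      ∃ T : X.functionField → X.functionField, IsFrobTrace k Ψ p T ∧
        (∀ T', IsFrobTrace k Ψ p T' → T' = T) ∧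
        ∀ r : ℕ, GenericallyFinite k (sections k Ψ (localRings X) r) → ∀ j : ℕ, n + 2 ≤ j →
          Birational k (S0 k Ψ p T (localRings X) (1 + j * r)) :=
  main_scheme pBasis_of traceMonomial_of topMem_of sepExists_of derivBound_of integralOfHeightOne_of
    inftyChart_of twoCharts_of integralSections_of wSection_of spread_of traceExists_of
    schemeCoord_of schemeComplete_of schemeFin_of p hn f

end Pool.Agent.Results.MP_8bcb2e_ag.GenericFiniteness
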