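import Pool.Agent.Lib.MP_8bcb2e_ag.B.All

/-!
# MP_8bcb2e_ag: effective birationality from a pluricanonical image of dimension at least `n - 1`

Let `X` be a smooth proper variety of dimension `n ≥ 2` and of general type over a perfect field `k` of
characteristic `p`. If the image of the rational map defined by `|rK_X|` has dimension at least `n - 1`,
then `|RK_X|` is generically finite onto its image for `R = (1 + 3r)(1 + rn) + r`, and Schwede's
canonical linear system `S⁰((1 + j R)K_X)` defines a birational map for every `j ≥ n + 2`.

Rational `m`-canonical forms are written as `F η ^ m`, where `η` is the rational top form given by a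
nonzero alternating form `Ψ` on the differentials of the function field; `T` is the trace of the
Frobenius on rational top forms in this notation, and it exists and is unique. The definitions are in
`Pool.Agent.Lib.MP_8bcb2e_ag.Defs` and (for schemes) in `Pool.Agent.Lib.MP_8bcb2e_ag.Spec`.
-/

set_option autoImplicit false

universe u

namespace Pool.Agent.Results.MP_8bcb2e_ag.ImageOfDimensionNMinusOne

open KaehlerDifferential AlgebraicGeometry CategoryTheory Pool.Agent.Lib.MP_8bcb2e_ag

theorem result {k : Type u} [Field k] [PerfectField k] (p : ℕ) [Fact p.Prime] [CharP k p]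
    {X : Scheme.{u}} [IsIntegral X] {n : ℕ} (hn : 2 ≤ n)
    (f : X ⟶ Spec (.of k)) [IsProper f] [SmoothOfRelativeDimension n f] :
    letI := functionFieldAlgebra f
    ∀ Ψ : Ω[X.functionField⁄k] [⋀^Fin n]→ₗ[X.functionField] X.functionField, Ψ ≠ 0 →
      ∃ T : X.functionField → X.functionField, IsFrobTrace k Ψ p T ∧
        (∀ T', IsFrobTrace k Ψ p T' → T' = T) ∧
        ∀ r : ℕ, 1 ≤ r → (∃ N, GenericallyFinite k (sections k Ψ (localRings X) N)) →
          (n : Cardinal.{u}) ≤ Algebra.trdeg k (ratioField k (sections k Ψ (localRings X) r)) + 1 →
          GenericallyFinite k (sections k Ψ (localRings X) ((1 + 3 * r) * (1 + r * n) + r)) ∧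
          ∀ j : ℕ, n + 2 ≤ j →
            Birational k (S0 k Ψ p T (localRings X) (1 + j * ((1 + 3 * r) * (1 + r * n) + r))) :=
  B.theoremB p hn f

end Pool.Agent.Results.MP_8bcb2e_ag.ImageOfDimensionNMinusOne
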