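import Pool.Agent.Lib.MP_8bcb2e_ag.AC.FinT
import Pool.Agent.Lib.MP_8bcb2e_ag.AC.Lift
import Pool.Agent.Lib.MP_8bcb2e_ag.AC.Dim
import Pool.Agent.Lib.MP_8bcb2e_ag.AC.Tr
import Pool.Agent.Lib.MP_8bcb2e_ag.AC.Sep
import Pool.Agent.Lib.MP_8bcb2e_ag.AC.Low
import Pool.Agent.Lib.MP_8bcb2e_ag.AC.Gro
import Pool.Agent.Lib.MP_8bcb2e_ag.AC.Point
import Pool.Agent.Lib.MP_8bcb2e_ag.AC.Abs
import Pool.Agent.Lib.MP_8bcb2e_ag.AC.Ind
import Pool.Agent.Lib.MP_8bcb2e_ag.AC.Glue
import Pool.Agent.Lib.MP_8bcb2e_ag.AC.Fib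
import Pool.Agent.Lib.MP_8bcb2e_ag.AC.VdG
import Pool.Agent.Lib.MP_8bcb2e_ag.AC.Pol
import Pool.Agent.Lib.MP_8bcb2e_ag.AC.Lim
import Pool.Agent.Lib.MP_8bcb2e_ag.AC.Cnt
import Pool.Agent.Lib.MP_8bcb2e_ag.AC.Int
import Pool.Agent.Lib.MP_8bcb2e_ag.AC.Rat
import Pool.Agent.Lib.MP_8bcb2e_ag.AC.Big
import Pool.Agent.Lib.MP_8bcb2e_ag.AC.Vol
import Pool.Agent.Lib.MP_8bcb2e_ag.AC.Diff
import Pool.Agent.Lib.MP_8bcb2e_ag.AC.VdPow
import Pool.Agent.Lib.MP_8bcb2e_ag.AC.Clr
import Pool.Agent.Lib.MP_8bcb2e_ag.AC.Td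
import Pool.Agent.Lib.MP_8bcb2e_ag.AC.Pt

/-!
# MP_8bcb2e_ag: effective birationality from plurigenera and the Hilbert polynomial

Let `X` be a smooth proper variety of general type and dimension `n ≥ 1` over an algebraically closed field
of characteristic `p`, and `r ≥ 1`. Suppose that for two coprime numbers `s₁, s₂` the products of `l` elements
of `H⁰(X, r sᵢ K_X)` span `H⁰(X, l r sᵢ K_X)` for all `l ≥ 1`, and let `χ` be the polynomial with
`χ(m) = h⁰(X, m r K_X)` for large `m`, and `v = n! * coeff χ n` (the volume of `rK_X`).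

* If `m ≥ 1` and `h⁰(X, m r K_X) > e + 2 ^ n v m ^ e`, then the image of `|m r K_X|` has dimension `> e`.
* For `e = n - 1`: `|m r K_X|` is generically finite and `S⁰((1 + j m r)K_X)` is birational for `j ≥ n + 2`.
* For `e = n - 2`, `n ≥ 2`, `ρ = m r`: `|R K_X|` is generically finite and `S⁰((1 + j R)K_X)` is birational for
  all `j ≥ n + 2`, where `R = (1 + 3 ρ) (1 + ρ n) + ρ`.
* If `n ≥ 2`, `t ≥ 1` and `4 ^ n (n+1) ^ (n-1) |χ(t i)| ≤ t ^ 2 h⁰(X, t i r K_X)` for `i = 1, …, n + 1`, then the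
  same holds with `ρ = r t (n+1)!`.
* Conversely, if `|NK_X|` is generically finite and `c = 1 + n (1 + (n+2) N)`, then
  `v (m - c) ^ n ≤ n! r ^ n h⁰(X, mK_X)` for all `m ≥ c`.

The hypothesis on products holds with `r = 1` if `K_X` is ample, and in general if the canonical ring is
finitely generated and `rK` is Cartier on the canonical model. So in the class of the `X` with `K_X` ample the
two questions are equivalent to the existence of a computable `m = m(n)` with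
`h⁰(X, mK_X) > n - 2 + 2 ^ n K_X ^ n m ^ (n - 2)` (`n ≥ 2`). If Kodaira vanishing holds for the multiples of
`K_X` (for example if `X` lifts to the second Witt vectors and `n ≤ p`) then `t = 2 ^ n (n+1) ^ n` will do in the
fourth part. The remarks of this paragraph are not part of the formal statement. The definitions are in
`Pool.Agent.Lib.MP_8bcb2e_ag.Defs`, (for schemes) in `Pool.Agent.Lib.MP_8bcb2e_ag.Spec`, and `H0` in
`Pool.Agent.Lib.MP_8bcb2e_ag.AC.Fin`.
-/

set_option autoImplicit false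

namespace Pool.Agent.Results.MP_8bcb2e_ag.VanishingExplicit

open KaehlerDifferential AlgebraicGeometry CategoryTheory Module
open Pool.Agent.Lib.MP_8bcb2e_ag Pool.Agent.Lib.MP_8bcb2e_ag.AC

theorem result {k : Type} [Field k] [IsAlgClosed k] (p : ℕ) [Fact p.Prime] [CharP k p]
    {X : Scheme.{0}} [IsIntegral X] {n : ℕ} (hn : 1 ≤ n)
    (f : X ⟶ Spec (.of k)) [IsProper f] [SmoothOfRelativeDimension n f] :
    letI := functionFieldAlgebra f
    ∀ Ψ : Ω[X.functionField⁄k] [⋀^Fin n]→ₗ[X.functionField] X.functionField, Ψ ≠ 0 →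
      ∃ T : X.functionField → X.functionField, IsFrobTrace k Ψ p T ∧
        (∀ T', IsFrobTrace k Ψ p T' → T' = T) ∧
        ∀ (r s₁ s₂ : ℕ) (χ : Polynomial ℚ), 1 ≤ r → 1 ≤ s₁ → 1 ≤ s₂ → Nat.Coprime s₁ s₂ →
          (∀ l, 1 ≤ l →
            H0 k Ψ (localRings X) (r * (l * s₁)) = H0 k Ψ (localRings X) (r * s₁) ^ l) →
          (∀ l, 1 ≤ l →
            H0 k Ψ (localRings X) (r * (l * s₂)) = H0 k Ψ (localRings X) (r * s₂) ^ l) →
          (∃ N, 1 ≤ N ∧ GenericallyFinite k (sections k Ψ (localRings X) N)) →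
          (∃ m₀ : ℕ, ∀ m : ℕ, m₀ ≤ m →
            χ.eval (m : ℚ) = finrank k (H0 k Ψ (localRings X) (r * m))) →
          (∀ m e : ℕ, 1 ≤ m →
            e + 2 ^ n * (n.factorial * χ.coeff n) * (m : ℚ) ^ e <
              (finrank k (H0 k Ψ (localRings X) (r * m)) : ℚ) →
            ((e + 1 : ℕ) : Cardinal) ≤
              Algebra.trdeg k (ratioField k (sections k Ψ (localRings X) (r * m)))) ∧
          (∀ m : ℕ, 1 ≤ m →
            (n - 1 : ℕ) + 2 ^ n * (n.factorial * χ.coeff n) * (m : ℚ) ^ (n - 1) <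
              (finrank k (H0 k Ψ (localRings X) (r * m)) : ℚ) →
            GenericallyFinite k (sections k Ψ (localRings X) (r * m)) ∧
              ∀ j : ℕ, n + 2 ≤ j → Birational k (S0 k Ψ p T (localRings X) (1 + j * (r * m)))) ∧
          (∀ m ρ : ℕ, 2 ≤ n → 1 ≤ m → ρ = r * m →
            (n - 2 : ℕ) + 2 ^ n * (n.factorial * χ.coeff n) * (m : ℚ) ^ (n - 2) <
              (finrank k (H0 k Ψ (localRings X) (r * m)) : ℚ) →
            GenericallyFinite k (sections k Ψ (localRings X) ((1 + 3 * ρ) * (1 + ρ * n) + ρ)) ∧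
              ∀ j : ℕ, n + 2 ≤ j → Birational k (S0 k Ψ p T (localRings X)
                (1 + j * ((1 + 3 * ρ) * (1 + ρ * n) + ρ)))) ∧
          (∀ t ρ : ℕ, 2 ≤ n → 1 ≤ t → ρ = r * (t * (n + 1).factorial) →
            (∀ i : ℕ, 1 ≤ i → i ≤ n + 1 →
              4 ^ n * (n + 1) ^ (n - 1) * |χ.eval ((t * i : ℕ) : ℚ)| ≤
                t ^ 2 * (finrank k (H0 k Ψ (localRings X) (r * (t * i))) : ℚ)) →
            GenericallyFinite k (sections k Ψ (localRings X) ((1 + 3 * ρ) * (1 + ρ * n) + ρ)) ∧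
              ∀ j : ℕ, n + 2 ≤ j → Birational k (S0 k Ψ p T (localRings X)
                (1 + j * ((1 + 3 * ρ) * (1 + ρ * n) + ρ)))) ∧
          ∀ N : ℕ, GenericallyFinite k (sections k Ψ (localRings X) N) →
            ∀ m : ℕ, 1 + n * (1 + (n + 2) * N) ≤ m →
              (n.factorial * χ.coeff n) * ((m : ℚ) - (1 + n * (1 + (n + 2) * N) : ℕ)) ^ n ≤
                n.factorial * r ^ n * (finrank k (H0 k Ψ (localRings X) m) : ℚ) := by
  have hGro := tGro tCnt tRat tVdPow (tVdG tLow)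
  have hInt := tInt hGro tRat
  have hBig := tBig tRat
  have hVol := tVol hInt tTd hBig tPol
  have hInd := tInd (tPoint tSep tClr tLift tPt tDim tTr) tRat tSep tVdPow
  have hAbs := tAbs (tFib hInt tTd hBig) hVol tPol hInd tGlue (tLim tCnt) tTd
  have hImg := tImg hAbs hVol tTd
  exact main_ACt hVol tTd hImg (tThrI hImg hVol tDiff tRat) tPl p hn f

end Pool.Agent.Results.MP_8bcb2e_ag.VanishingExplicit
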